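import Pool.Agent.LRG.StmtsA

/-! Squad LRG, row SHF: changing the coordinates modulo `p ^ 2`. -/

set_option autoImplicit false

open Polynomial

namespace Pool.Agent.LRG.H94

open Pool.Agent.LRG

theorem map_chiI {S S' : Type} [CommRing S] [CommRing S'] (f : S →+* S') {n r : ℕ}
    (e : Fin r → ℤ) (y : Ix n r → S) (i : Fin r) :
    (chiI e y i).map f = chiI e (fun s => f (y s)) i := by
  simp [chiI, chi, Polynomial.map_sum, Polynomial.map_add, Polynomial.map_mul,
    Polynomial.map_pow, Polynomial.map_intCast]

theorem shf : A.ShfStmt := by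
  intro p n r z₀ e M i a b h S _ g
  have h1 := congrArg (Polynomial.map (Int.castRingHom S)) h
  simp only [Polynomial.map_pow, Polynomial.map_X, Polynomial.map_add, Polynomial.map_one,
    Polynomial.map_mul, Polynomial.map_C, map_chiI, map_pow, map_natCast] at h1
  set q : S[X] := ∑ j : Fin (n - 1), C (g (Sum.inl (i, j))) * X ^ (j.1 + 1) with hq
  have h2 : chiI e (fun s => (z₀ s : S) + (p : S) ^ 2 * g s) i
      = chiI e (fun s => (Int.castRingHom S) (z₀ s)) i + C ((p : S) ^ 2) * q := by
    simp only [chiI, chi, hq, Finset.mul_sum, eq_intCast, C_add, C_mul, add_mul,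
      Finset.sum_add_distrib]
    ring_nf
  refine ⟨Polynomial.map (Int.castRingHom S) a - q * Polynomial.map (Int.castRingHom S) b,
    Polynomial.map (Int.castRingHom S) b, ?_⟩
  rw [h2]
  simp only [map_natCast, C_pow, Polynomial.map_natCast] at h1 ⊢
  linear_combination h1

end Pool.Agent.LRG.H94
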