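import Pool.Agent.LRG.StmtsB2

/-! Squad LRG, row DMM: the determinant method. -/

set_option autoImplicit false

open Polynomial

namespace Pool.Agent.LRG.H94

open Pool.Agent.LRG

theorem det_cong {R : Type} [CommRing R] {L : ℕ} (x : R) (A B : Matrix (Fin L) (Fin L) R)
    (h : ∀ i j, x ∣ A i j - B i j) (hB : x ∣ B.det) : x ∣ A.det := by
  have h1 : (Ideal.Quotient.mk (Ideal.span {x})) A.det
      = (Ideal.Quotient.mk (Ideal.span {x})) B.det := by
    rw [RingHom.map_det, RingHom.map_det]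
    congr 1
    ext i j
    simp only [RingHom.mapMatrix_apply, Matrix.map_apply]
    exact (Ideal.Quotient.eq).2 (Ideal.mem_span_singleton.2 (h i j))
  have h2 := Ideal.mem_span_singleton.1 ((Ideal.Quotient.eq).1 h1)
  exact (dvd_sub_left hB).1 (by simpa using h2)

theorem dmm : DmmStmt := by
  intro hRPR hDTM hNMM hABM p hp n n₀ K η hη
  classical
  obtain ⟨D, B, hDB⟩ := hNMM p n (n₀ * (K + 1) ^ (n + 1)) hp.out η hη
  refine ⟨D, B, ?_⟩
  intro a ha hdom P T X hX w ϕ v b hT hmon
  obtain ⟨κ, c₀, h1, h2⟩ := hDB X hX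
  let e : Fin ((D + 1) ^ (n + 1)) ≃ (Fin (n + 1) → Fin (D + 1)) :=
    (Fintype.equivFinOfCardEq (by simp)).symm
  haveI : NeZero (p ^ κ) := ⟨pow_ne_zero _ hp.out.ne_zero⟩
  let enum : (Fin n → ZMod (p ^ κ)) ≃ Fin ((p ^ κ) ^ n) :=
    Fintype.equivFinOfCardEq (by simp [ZMod.card])
  refine ⟨(p ^ κ) ^ n,
    fun x => enum (fun i => PadicInt.toZModPow κ (vp K (v x) i)), ?_, ?_⟩
  · rw [← pow_mul]
    push_cast
    exact h2
  · intro l
    by_cases hne : ∃ x₁ ∈ T, enum (fun i => PadicInt.toZModPow κ (vp K (v x₁) i)) = l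
    · obtain ⟨x₁, hx₁, hcl₁⟩ := hne
      have hξ : ∀ x, ∃ ξ : Fin n → ℤ_[p], x ∈ T →
          enum (fun i => PadicInt.toZModPow κ (vp K (v x) i)) = l →
          ∀ i, vp K (v x) i = vp K (v x₁) i + (p : ℤ_[p]) ^ κ * ξ i := by
        intro x
        by_cases hx : x ∈ T ∧ enum (fun i => PadicInt.toZModPow κ (vp K (v x) i)) = l
        · have h3 : ∀ i, ∃ z : ℤ_[p], vp K (v x) i = vp K (v x₁) i + (p : ℤ_[p]) ^ κ * z := by
            intro i
            have h4 := congrFun (enum.injective (hx.2.trans hcl₁.symm)) i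
            have h5 : vp K (v x) i - vp K (v x₁) i ∈ RingHom.ker (PadicInt.toZModPow (p := p) κ) := by
              rw [RingHom.mem_ker, map_sub, sub_eq_zero]
              exact h4
            rw [PadicInt.ker_toZModPow, Ideal.mem_span_singleton] at h5
            obtain ⟨z, hz⟩ := h5
            exact ⟨z, by rw [← hz]; ring⟩
          choose ξ hξ using h3
          exact ⟨ξ, fun _ _ => hξ⟩
        · exact ⟨0, fun h3 h4 => absurd ⟨h3, h4⟩ hx⟩
      choose ξ hξ using hξ
      have hc : ∀ j : Fin ((D + 1) ^ (n + 1)), ∃ c : Fin n₀ → MvPowerSeries (Fin (n + 1)) ℤ_[p],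
          ∀ x ∈ T, ((∏ i, w x i ^ (e j i : ℕ) : ℤ) : ℤ_[p]) = ∑ l, ϕ x (c l) * b x l :=
        fun j => hmon (fun i => (e j i : ℕ))
      choose c hc using hc
      have hr := fun (j : Fin ((D + 1) ^ (n + 1))) (l : Fin n₀) =>
        hRPR p n K a ha hdom
          (κ * (c₀ * ((D + 1) ^ (n + 1) - n₀ * (K + 1) ^ (n + 1) * c₀ ^ n))) (c j l)
      choose r hr1 hr2 using hr
      obtain ⟨g, hg0, hg⟩ := hABM p n D X _ hX h1 P
        (T.filter fun x => enum (fun i => PadicInt.toZModPow κ (vp K (v x) i)) = l) w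
        (fun x hx => (hT x (Finset.mem_filter.1 hx).1).1) e (by
          intro J hJ
          have hJT : ∀ j, J j ∈ T := fun j => (Finset.mem_filter.1 (hJ j)).1
          have hJl : ∀ j, enum (fun i => PadicInt.toZModPow κ (vp K (v (J j)) i)) = l :=
            fun j => (Finset.mem_filter.1 (hJ j)).2
          refine det_cong _ _ (Matrix.of fun j j' => ∑ l, pev (r j l)
            (fun i => vp K (v x₁) i + (p : ℤ_[p]) ^ κ * ξ (J j') i) (v (J j') 0) * b (J j') l)
            ?_ ?_
          · intro i j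
            simp only [Matrix.of_apply]
            rw [hc i (J j) (hJT j), ← Finset.sum_sub_distrib]
            refine Finset.dvd_sum fun l _ => ?_
            rw [← sub_mul]
            refine Dvd.dvd.mul_right ?_ _
            have h6 := hr2 i l (ϕ (J j)) (v (J j)) (hT _ (hJT j)).2.1 (hT _ (hJT j)).2.2
            have h7 : vp K (v (J j)) = fun i => vp K (v x₁) i + (p : ℤ_[p]) ^ κ * ξ (J j) i :=
              funext fun i => hξ (J j) (hJT j) (hJl j) i
            rw [h7] at h6
            exact h6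
          · have h8 := hDTM ℤ_[p] ((p : ℤ_[p]) ^ κ) n ((K + 1) ^ (n + 1)) n₀
              ((D + 1) ^ (n + 1)) c₀ r (fun j l => hr1 j l) (vp K (v x₁))
              (fun j => ξ (J j)) (fun j => v (J j) 0) (fun j l => b (J j) l)
            rw [← pow_mul] at h8
            exact h8)
      exact ⟨g, hg0, fun x hx hcl => hg x (Finset.mem_filter.2 ⟨hx, hcl⟩)⟩
    · refine ⟨fun _ => 1, ?_, fun x hx hcl => absurd ⟨x, hx, hcl⟩ hne⟩
      intro h0
      have := congrFun h0 (fun _ => 0)
      simp at this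

end Pool.Agent.LRG.H94
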