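import Pool.Agent.LRG.StmtsK
import Pool.Agent.Helper90_LUB.AXK

/-! Squad LRG, row ALX: everything is algebraic over the field generated by `t` and the
constants. -/

set_option autoImplicit false

open Polynomial

namespace Pool.Agent.LRG.H94

open Pool.Agent.LRG

section

variable {Ω : Type} [Field Ω]

theorem lagP_coeff_mem (A : Subfield Ω) {n : ℕ} (x : Fin n → Ω) (hx : ∀ j, x j ∈ A) (j : Fin n)
    (m : ℕ) : (lagP x j).coeff m ∈ A := by
  have h1 : lagP x j = (lagP (fun k => (⟨x k, hx k⟩ : A)) j).map A.subtype := by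
    simp [lagP, Polynomial.map_prod]
  rw [h1, Polynomial.coeff_map]
  exact ((lagP (fun k => (⟨x k, hx k⟩ : A)) j).coeff m).2

theorem lagE_mem (A : Subfield Ω) {n : ℕ} (x : Fin n → Ω) (hx : ∀ j, x j ∈ A) (j : Fin n) :
    lagE x j ∈ A := by
  unfold lagE lagD
  exact prod_mem fun k _ => prod_mem fun l _ => sub_mem (hx k) (hx l)

end

theorem alx : K.ChmStmt → K.AlxStmt := by
  intro hchm p _ n r z₀ e ξ Ω _ _ _ D x harc hξ
  classical
  set T : Ω := algebraMap (PowerSeries ℤ_[p]) Ω PowerSeries.X with hT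
  -- the polynomials in t lie in the field
  have hpoly : ∀ f : ℤ_[p][X], algebraMap (PowerSeries ℤ_[p]) Ω (f : PowerSeries ℤ_[p]) ∈
      LUB.Fld D T := by
    intro f
    induction f using Polynomial.induction_on' with
    | add f g hf hg =>
      rw [Polynomial.coe_add, map_add]
      exact add_mem hf hg
    | monomial m c =>
      rw [← Polynomial.C_mul_X_pow_eq_monomial, Polynomial.coe_mul, Polynomial.coe_C,
        Polynomial.coe_pow, Polynomial.coe_X, map_mul, map_pow]
      have hTm : T ∈ LUB.Fld D T := Subfield.subset_closure (Or.inr rfl)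
      have hCm : algebraMap (PowerSeries ℤ_[p]) Ω (PowerSeries.C c) ∈ LUB.Fld D T := by
        refine Subfield.subset_closure (Or.inl ?_)
        show D _ = 0
        rw [harc.der]
        have : PowerSeries.derivative ℤ_[p] (PowerSeries.C c) = 0 := by
          simp
        rw [this, map_zero]
      exact mul_mem hCm (pow_mem hTm _)
  let ι : ℤ_[p][X] →+* LUB.Fld D T :=
    ((algebraMap (PowerSeries ℤ_[p]) Ω).comp Polynomial.coeToPowerSeries.ringHom).codRestrict
      (LUB.Fld D T) hpoly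
  have hι : Function.Injective ι := by
    intro f g hfg
    have h1 : algebraMap (PowerSeries ℤ_[p]) Ω (f : PowerSeries ℤ_[p])
        = algebraMap (PowerSeries ℤ_[p]) Ω (g : PowerSeries ℤ_[p]) := congrArg Subtype.val hfg
    exact Polynomial.coe_injective _ (harc.inj h1)
  have hιc : (algebraMap (LUB.Fld D T) Ω).comp ι =
      (algebraMap (PowerSeries ℤ_[p]) Ω).comp Polynomial.coeToPowerSeries.ringHom := by
    ext f <;> rfl
  have hξA : ∀ s, algebraMap (PowerSeries ℤ_[p]) Ω (ξ s) ∈ LUB.H90.Alg D T := by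
    intro s
    obtain ⟨P, hP0, hP⟩ := hξ s
    rw [LUB.H90.mem_Alg]
    refine ⟨P.map ι, (Polynomial.map_ne_zero_iff hι).2 hP0, ?_⟩
    rw [Polynomial.aeval_def, Polynomial.eval₂_map, hιc, ← Polynomial.hom_eval₂, hP, map_zero]
  have hy : ∀ s, yO z₀ ξ Ω s ∈ LUB.H90.Alg D T := fun s =>
    add_mem (intCast_mem _ _) (mul_mem (pow_mem (natCast_mem _ _) _) (hξA s))
  have hx : ∀ i j, x i j ∈ LUB.H90.Alg D T := by
    intro i j
    have hn : 0 < n := lt_of_le_of_lt (Nat.zero_le _) j.2
    let y' : Fin (n - 1) → algebraicClosure (LUB.Fld D T) Ω :=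
      fun k => ⟨yO z₀ ξ Ω (Sum.inl (i, k)), hy _⟩
    have h1 : (chi n (e i) y').map (algebraMap (algebraicClosure (LUB.Fld D T) Ω) Ω)
        = chiI e (yO z₀ ξ Ω) i := hchm.1 _ _ _ n (e i) y'
    have h2 : (chi n (e i) y').Monic := hchm.2 _ n (e i) y' hn
    have h3 : IsAlgebraic (algebraicClosure (LUB.Fld D T) Ω) (x i j) := by
      refine ⟨chi n (e i) y', h2.ne_zero, ?_⟩
      rw [Polynomial.aeval_def, ← Polynomial.eval_map, h1, harc.roots i, Polynomial.eval_prod]
      exact Finset.prod_eq_zero (Finset.mem_univ j) (by simp)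
    rw [LUB.H90.mem_Alg]
    exact h3.restrictScalars (LUB.Fld D T)
  refine ⟨fun i j => LUB.H90.mem_Alg.1 (hx i j), fun i i' j j' => LUB.H90.mem_Alg.1 ?_⟩
  unfold cc
  refine mul_mem (mul_mem (sum_mem fun a _ => sum_mem fun b _ => mul_mem (mul_mem
    (lagP_coeff_mem _ _ (hx i) _ _) (lagP_coeff_mem _ _ (hx i') _ _)) (hy _)) ?_) ?_
  · exact lagE_mem _ _ (hx i) _
  · exact lagE_mem _ _ (hx i') _

end Pool.Agent.LRG.H94
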