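import Pool.Agent.LRG.StmtsB3

/-! Squad LRG, row LAR: a set covered by classes with relations is small. -/

set_option autoImplicit false

namespace Pool.Agent.LRG.H94

open Pool.Agent.LRG

theorem lar : LarStmt := by
  intro m k e n₁ L T A cls hTne hAT hRob hL hdep
  by_contra hcon
  push Not at hcon
  have hmaps : ∀ x ∈ A, cls x ∈ (Finset.univ : Finset (Fin n₁)) := fun x _ => Finset.mem_univ _
  have hsum := Finset.card_eq_sum_card_fiberwise hmaps
  have hex : ∃ l : Fin n₁, A.card ≤ n₁ * (A.filter fun x => cls x = l).card := by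
    by_contra h
    push Not at h
    have hApos : 0 < A.card := by
      have := hTne.card_pos
      omega
    obtain ⟨x, hx⟩ := Finset.card_pos.1 hApos
    haveI : Nonempty (Fin n₁) := ⟨cls x⟩
    have h1 : ∑ l : Fin n₁, n₁ * (A.filter fun x => cls x = l).card < ∑ _l : Fin n₁, A.card :=
      Finset.sum_lt_sum_of_nonempty Finset.univ_nonempty fun l _ => h l
    rw [← Finset.mul_sum, ← hsum] at h1
    simp at h1
  obtain ⟨l, hl⟩ := hex
  refine hRob _ ((Finset.filter_subset _ _).trans hAT) ?_ (hdep l)
  have h2 : (T.card : ℝ) ≤ 2 * A.card := by exact_mod_cast hcon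
  have h3 : (A.card : ℝ) ≤ n₁ * ((A.filter fun x => cls x = l).card : ℝ) := by exact_mod_cast hl
  have h4 : (2 * (n₁ : ℝ)) * ((A.filter fun x => cls x = l).card : ℝ)
      ≤ L * ((A.filter fun x => cls x = l).card : ℝ) :=
    mul_le_mul_of_nonneg_right hL (Nat.cast_nonneg _)
  linarith

end Pool.Agent.LRG.H94
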